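import Pool.Agent.SGL.StmtsU

/-!
# Squad SGL, row PFC (helper52): the faces are positive.
-/

noncomputable section

namespace Pool.Agent.SGL.H52

open Pool.Agent.SGE Pool.Agent.SGP Pool.Agent.SGY Pool.Agent.SGD Pool.Agent.SGL Filter

/-- Row PFC. -/
theorem pfc (hG : PsgStmt) (hA : PsaStmt) : PfcStmt := by
  intro V _ a b c E F h s x y hN hP
  have cua : ∀ B W : ℝ, cu a s x y B W a = (W, 0) := fun B W => by
    unfold cu; exact if_pos rfl
  have cun : ∀ (B W : ℝ) (v : V), v ≠ a → cu a s x y B W v = (x v, B ^ s v + y v) :=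
    fun B W v hv => by unfold cu; exact if_neg hv
  have rot := hN.rot
  have ne1 : ∀ u v w, F u v w → u ≠ v := fun u v w h1 h2 => by
    have h3 := hN.fe u v w h1
    rw [h2] at h3
    exact hN.irr v h3
  obtain ⟨G1, G2⟩ := hG s x y
  -- the case with `a`
  have caseA : ∀ u w, F u a w → ∀ᶠ B : ℝ in atTop, ∀ᶠ W : ℝ in atTop,
      0 < o (cu a s x y B W u) (cu a s x y B W a) (cu a s x y B W w) := by
    intro u w hF
    have hu : u ≠ a := ne1 _ _ _ hF
    have hw : w ≠ a := (ne1 _ _ _ (rot _ _ _ hF)).symm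
    refine (hA s x y u w (hP.fa u w hF)).mono fun B hB => hB.mono fun W hW => ?_
    rw [cun B W u hu, cua B W, cun B W w hw]
    exact hW
  -- the cases without `a`
  have key : ∀ u v w, F u v w → u ≠ a → v ≠ a → w ≠ a → ∀ᶠ B : ℝ in atTop,
      0 < o (x u, B ^ s u + y u) (x v, B ^ s v + y v) (x w, B ^ s w + y w) := by
    intro u v w hF hu hv hw
    have hF2 := rot _ _ _ hF
    have hF3 := rot _ _ _ hF2
    have tri : (s u = s v ∧ s v = s w) ∨ (s u < s w ∧ s v < s w) ∨ (s v < s u ∧ s w < s u) ∨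
        (s w < s v ∧ s u < s v) ∨ (s u < s v ∧ s v = s w) ∨ (s v < s w ∧ s w = s u) ∨
        (s w < s u ∧ s u = s v) := by omega
    rcases tri with h1 | h1 | h1 | h1 | h1 | h1 | h1
    · refine Eventually.of_forall fun B => ?_
      have h2 := hP.f3 u v w hF hu hv hw h1.1 h1.2
      have h3 : o (x u, B ^ s u + y u) (x v, B ^ s v + y v) (x w, B ^ s w + y w) =
          o (pv x y u) (pv x y v) (pv x y w) := by
        rw [h1.1, h1.2]
        unfold o pv
        ring
      rw [h3]; exact h2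
    · exact G1 u v w h1.1 h1.2 (hP.f1 u v w hF hu hv hw h1.1 h1.2)
    · refine (G1 v w u h1.1 h1.2 (hP.f1 v w u hF2 hv hw hu h1.1 h1.2)).mono fun B hB => ?_
      rw [o_rot]; exact hB
    · refine (G1 w u v h1.1 h1.2 (hP.f1 w u v hF3 hw hu hv h1.1 h1.2)).mono fun B hB => ?_
      rw [o_rot, o_rot]; exact hB
    · exact G2 u v w h1.1 h1.2 (hP.f2 u v w hF hu hv hw h1.1 h1.2)
    · refine (G2 v w u h1.1 h1.2 (hP.f2 v w u hF2 hv hw hu h1.1 h1.2)).mono fun B hB => ?_
      rw [o_rot]; exact hB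
    · refine (G2 w u v h1.1 h1.2 (hP.f2 w u v hF3 hw hu hv h1.1 h1.2)).mono fun B hB => ?_
      rw [o_rot, o_rot]; exact hB
  simp only [Filter.eventually_all, Filter.eventually_imp_distrib_left]
  intro u v w hF
  have hF2 := rot _ _ _ hF
  have hF3 := rot _ _ _ hF2
  by_cases hv : v = a
  · subst hv
    exact caseA u w hF
  by_cases hu : u = a
  · subst hu
    refine (caseA w v hF3).mono fun B hB => hB.mono fun W hW => ?_
    rw [o_rot, o_rot]; exact hW
  by_cases hw : w = a
  · subst hw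
    refine (caseA v u hF2).mono fun B hB => hB.mono fun W hW => ?_
    rw [o_rot]; exact hW
  refine (key u v w hF hu hv hw).mono fun B hB => Eventually.of_forall fun W => ?_
  rw [cun B W u hu, cun B W v hv, cun B W w hw]
  exact hB

end Pool.Agent.SGL.H52
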